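import Pool.Agent.Helper770.VanKampen

set_option autoImplicit false

/-! Task 571-D: a `K₃,₃` argument in the closed upper half plane. -/

namespace Pool.Agent.H650R3.T571D

open Complex Set Pool.Agent.Helper770.VanKampen

/-- the edges of `K₃,₃` on `Fin 6` -/
def E33 (a b : Fin 6) : Prop := a < 3 ∧ 3 ≤ b

instance : DecidableRel E33 := fun a b => by unfold E33; infer_instance

/-- Van Kampen obstruction for `K₃,₃`. -/
theorem k33_joined (p : Fin 6 → ℂ) (S : Fin 6 → Fin 6 → Set ℂ)
    (hS : ∀ a b, E33 a b → JoinedIn (S a b) (p a) (p b))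
    (hdis : ∀ a b c d, E33 a b → E33 c d → a ≠ c → b ≠ d → Disjoint (S a b) (S c d)) : False := by
  classical
  let γ : Fin 6 → Fin 6 → ℝ → ℂ := fun a b =>
    if h : E33 a b then (hS a b h).somePath.extend else fun _ => 0
  have hγ : ∀ a b (h : E33 a b), γ a b = (hS a b h).somePath.extend := fun a b h => dif_pos h
  have hmem : ∀ a b, E33 a b → ∀ t, γ a b t ∈ S a b := by
    intro a b h t
    rw [hγ a b h]
    have : (hS a b h).somePath.extend t ∈ Set.range (hS a b h).somePath.extend := ⟨t, rfl⟩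
    rw [Path.extend_range] at this
    obtain ⟨s, hs⟩ := this
    rw [← hs]
    exact (hS a b h).somePath_mem s
  have hpmem : ∀ a b, E33 a b → p a ∈ S a b ∧ p b ∈ S a b := fun a b h =>
    ⟨(hS a b h).source_mem, (hS a b h).target_mem⟩
  have hd : ∀ a b c d, a < b → c < d → E33 a b → E33 c d → a ≠ c → a ≠ d → b ≠ c → b ≠ d →
      ∀ s t, γ a b s ≠ γ c d t := by
    intro a b c d _ _ hab hcd h1 _ _ h4 s t he
    exact Set.disjoint_left.mp (hdis a b c d hab hcd h1 h4) (hmem a b hab s)
      (he ▸ hmem c d hcd t)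
  have hex : ∀ a b c : Fin 6, E33 a b → c ≠ a → c ≠ b → ∃ x y : Fin 6, E33 x y ∧ (c = x ∨ c = y) ∧
      a ≠ x ∧ b ≠ y := by decide
  have hex2 : ∀ a c : Fin 6, a ≠ c → ∃ b b' : Fin 6, E33 b b' ∧ (a = b ∨ a = b') ∧ c ≠ b ∧ c ≠ b' := by
    decide
  have hv : ∀ a b c : Fin 6, a < b → E33 a b → c ≠ a → c ≠ b → ∀ t, γ a b t ≠ p c := by
    intro a b c _ hab hca hcb t he
    obtain ⟨x, y, hxy, hc, h1, h2⟩ := hex a b c hab hca hcb
    have hpc : p c ∈ S x y := by
      rcases hc with rfl | rfl
      · exact (hpmem _ _ hxy).1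
      · exact (hpmem _ _ hxy).2
    exact Set.disjoint_left.mp (hdis a b x y hab hxy h1 h2) (hmem a b hab t) (he ▸ hpc)
  have hlt : ∀ a b : Fin 6, E33 a b → a < b := by decide
  have hp : Function.Injective p := by
    intro a c hac
    by_contra hne
    obtain ⟨b, b', hbb, ha, h1, h2⟩ := hex2 a c hne
    have h0 : γ b b' 0 = p b := by rw [hγ _ _ hbb]; simp
    have h1' : γ b b' 1 = p b' := by rw [hγ _ _ hbb]; simp
    rcases ha with rfl | rfl
    · exact hv _ _ c (hlt _ _ hbb) hbb h1 h2 0 (h0.trans hac)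
    · exact hv _ _ c (hlt _ _ hbb) hbb h1 h2 1 (h1'.trans hac)
  obtain ⟨m, hm⟩ := exists_labels p hp E33 γ
    (fun a b _ h => by rw [hγ a b h]; exact (hS a b h).somePath.continuous_extend)
    (fun a b _ h => by rw [hγ a b h]; simp) (fun a b _ h => by rw [hγ a b h]; simp) hv
  have h0 := hm 0 3 1 4 (by decide) (by decide) (by decide) (by decide) (by decide) (by decide) (by decide) (by decide) (hd _ _ _ _ (by decide) (by decide) (by decide) (by decide) (by decide) (by decide) (by decide) (by decide))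
  rw [show beta (0 : Fin 6) 3 1 4 = 1 from by decide] at h0
  have h1 := hm 0 3 1 5 (by decide) (by decide) (by decide) (by decide) (by decide) (by decide) (by decide) (by decide) (hd _ _ _ _ (by decide) (by decide) (by decide) (by decide) (by decide) (by decide) (by decide) (by decide))
  rw [show beta (0 : Fin 6) 3 1 5 = 1 from by decide] at h1
  have h2 := hm 0 4 1 3 (by decide) (by decide) (by decide) (by decide) (by decide) (by decide) (by decide) (by decide) (hd _ _ _ _ (by decide) (by decide) (by decide) (by decide) (by decide) (by decide) (by decide) (by decide))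
  rw [show beta (0 : Fin 6) 4 1 3 = 0 from by decide] at h2
  have h3 := hm 0 4 1 5 (by decide) (by decide) (by decide) (by decide) (by decide) (by decide) (by decide) (by decide) (hd _ _ _ _ (by decide) (by decide) (by decide) (by decide) (by decide) (by decide) (by decide) (by decide))
  rw [show beta (0 : Fin 6) 4 1 5 = 1 from by decide] at h3
  have h4 := hm 0 5 1 3 (by decide) (by decide) (by decide) (by decide) (by decide) (by decide) (by decide) (by decide) (hd _ _ _ _ (by decide) (by decide) (by decide) (by decide) (by decide) (by decide) (by decide) (by decide))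
  rw [show beta (0 : Fin 6) 5 1 3 = 0 from by decide] at h4
  have h5 := hm 0 5 1 4 (by decide) (by decide) (by decide) (by decide) (by decide) (by decide) (by decide) (by decide) (hd _ _ _ _ (by decide) (by decide) (by decide) (by decide) (by decide) (by decide) (by decide) (by decide))
  rw [show beta (0 : Fin 6) 5 1 4 = 0 from by decide] at h5
  have h6 := hm 0 3 2 4 (by decide) (by decide) (by decide) (by decide) (by decide) (by decide) (by decide) (by decide) (hd _ _ _ _ (by decide) (by decide) (by decide) (by decide) (by decide) (by decide) (by decide) (by decide))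
  rw [show beta (0 : Fin 6) 3 2 4 = 1 from by decide] at h6
  have h7 := hm 0 3 2 5 (by decide) (by decide) (by decide) (by decide) (by decide) (by decide) (by decide) (by decide) (hd _ _ _ _ (by decide) (by decide) (by decide) (by decide) (by decide) (by decide) (by decide) (by decide))
  rw [show beta (0 : Fin 6) 3 2 5 = 1 from by decide] at h7
  have h8 := hm 0 4 2 3 (by decide) (by decide) (by decide) (by decide) (by decide) (by decide) (by decide) (by decide) (hd _ _ _ _ (by decide) (by decide) (by decide) (by decide) (by decide) (by decide) (by decide) (by decide))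
  rw [show beta (0 : Fin 6) 4 2 3 = 0 from by decide] at h8
  have h9 := hm 0 4 2 5 (by decide) (by decide) (by decide) (by decide) (by decide) (by decide) (by decide) (by decide) (hd _ _ _ _ (by decide) (by decide) (by decide) (by decide) (by decide) (by decide) (by decide) (by decide))
  rw [show beta (0 : Fin 6) 4 2 5 = 1 from by decide] at h9
  have h10 := hm 0 5 2 3 (by decide) (by decide) (by decide) (by decide) (by decide) (by decide) (by decide) (by decide) (hd _ _ _ _ (by decide) (by decide) (by decide) (by decide) (by decide) (by decide) (by decide) (by decide))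
  rw [show beta (0 : Fin 6) 5 2 3 = 0 from by decide] at h10
  have h11 := hm 0 5 2 4 (by decide) (by decide) (by decide) (by decide) (by decide) (by decide) (by decide) (by decide) (hd _ _ _ _ (by decide) (by decide) (by decide) (by decide) (by decide) (by decide) (by decide) (by decide))
  rw [show beta (0 : Fin 6) 5 2 4 = 0 from by decide] at h11
  have h12 := hm 1 3 2 4 (by decide) (by decide) (by decide) (by decide) (by decide) (by decide) (by decide) (by decide) (hd _ _ _ _ (by decide) (by decide) (by decide) (by decide) (by decide) (by decide) (by decide) (by decide))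
  rw [show beta (1 : Fin 6) 3 2 4 = 1 from by decide] at h12
  have h13 := hm 1 3 2 5 (by decide) (by decide) (by decide) (by decide) (by decide) (by decide) (by decide) (by decide) (hd _ _ _ _ (by decide) (by decide) (by decide) (by decide) (by decide) (by decide) (by decide) (by decide))
  rw [show beta (1 : Fin 6) 3 2 5 = 1 from by decide] at h13
  have h14 := hm 1 4 2 3 (by decide) (by decide) (by decide) (by decide) (by decide) (by decide) (by decide) (by decide) (hd _ _ _ _ (by decide) (by decide) (by decide) (by decide) (by decide) (by decide) (by decide) (by decide))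
  rw [show beta (1 : Fin 6) 4 2 3 = 0 from by decide] at h14
  have h15 := hm 1 4 2 5 (by decide) (by decide) (by decide) (by decide) (by decide) (by decide) (by decide) (by decide) (hd _ _ _ _ (by decide) (by decide) (by decide) (by decide) (by decide) (by decide) (by decide) (by decide))
  rw [show beta (1 : Fin 6) 4 2 5 = 1 from by decide] at h15
  have h16 := hm 1 5 2 3 (by decide) (by decide) (by decide) (by decide) (by decide) (by decide) (by decide) (by decide) (hd _ _ _ _ (by decide) (by decide) (by decide) (by decide) (by decide) (by decide) (by decide) (by decide))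
  rw [show beta (1 : Fin 6) 5 2 3 = 0 from by decide] at h16
  have h17 := hm 1 5 2 4 (by decide) (by decide) (by decide) (by decide) (by decide) (by decide) (by decide) (by decide) (hd _ _ _ _ (by decide) (by decide) (by decide) (by decide) (by decide) (by decide) (by decide) (by decide))
  rw [show beta (1 : Fin 6) 5 2 4 = 0 from by decide] at h17
  have two : (2 : ZMod 2) = 0 := rfl
  have one : (1 : ZMod 2) = 0 := by
    linear_combination h0 + h1 + h2 + h3 + h4 + h5 + h6 + h7 + h8 + h9 + h10 + h11 + h12 + h13 + h14 + h15 + h16 + h17 + ((m 0 3 1 + m 0 3 2 + m 0 3 4 + m 0 3 5 + m 0 4 1 + m 0 4 2 + m 0 4 3 + m 0 4 5 + m 0 5 1 + m 0 5 2 + m 0 5 3 + m 0 5 4 + m 1 3 0 + m 1 3 2 + m 1 3 4 + m 1 3 5 + m 1 4 0 + m 1 4 2 + m 1 4 3 + m 1 4 5 + m 1 5 0 + m 1 5 2 + m 1 5 3 + m 1 5 4 + m 2 3 0 + m 2 3 1 + m 2 3 4 + m 2 3 5 + m 2 4 0 + m 2 4 1 + m 2 4 3 + m 2 4 5 + m 2 5 0 + m 2 5 1 + m 2 5 3 + m 2 5 4) - 4) * two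
  exact one_ne_zero one

/-- index of a vertex of the second side -/
def idx (b : Fin 6) : Fin 3 := ⟨b.val % 3, Nat.mod_lt _ (by norm_num)⟩

lemma seg_im {u v z : ℂ} (hu : u.im = 0) (hv : v.im = 0) (hz : z ∈ segment ℝ u v) : z.im = 0 := by
  obtain ⟨a, b, ha, hb, hab, rfl⟩ := hz
  simp [hu, hv]

lemma seg_re_lt {u v z : ℂ} {r : ℝ} (hu : r < u.re) (hv : r < v.re) (hz : z ∈ segment ℝ u v) :
    r < z.re := by
  obtain ⟨a, b, ha, hb, hab, rfl⟩ := hz
  simp only [Complex.add_re, Complex.real_smul, Complex.mul_re, Complex.ofReal_re,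
    Complex.ofReal_im, zero_mul, sub_zero]
  rcases ha.eq_or_lt with h | h
  · rw [← h] at hab ⊢
    have : b = 1 := by linarith
    rw [this]; linarith
  · have e1 : a * r < a * u.re := mul_lt_mul_of_pos_left hu h
    have e2 : b * r ≤ b * v.re := mul_le_mul_of_nonneg_left hv.le hb
    have e3 : r = a * r + b * r := by rw [← add_mul, hab, one_mul]
    linarith

lemma seg_re_gt {u v z : ℂ} {r : ℝ} (hu : u.re < r) (hv : v.re < r) (hz : z ∈ segment ℝ u v) :
    z.re < r := by
  obtain ⟨a, b, ha, hb, hab, rfl⟩ := hz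
  simp only [Complex.add_re, Complex.real_smul, Complex.mul_re, Complex.ofReal_re,
    Complex.ofReal_im, zero_mul, sub_zero]
  rcases ha.eq_or_lt with h | h
  · rw [← h] at hab ⊢
    have : b = 1 := by linarith
    rw [this]; linarith
  · have e1 : a * u.re < a * r := mul_lt_mul_of_pos_left hu h
    have e2 : b * v.re ≤ b * r := mul_le_mul_of_nonneg_left hv.le hb
    have e3 : r = a * r + b * r := by rw [← add_mul, hab, one_mul]
    linarith

lemma low_im {v z : ℂ} (hv : v.im = 0) (hz : z ∈ segment ℝ (-I) v) : z.im ≤ 0 ∧ (z.im = 0 → z = v) := by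
  obtain ⟨a, b, ha, hb, hab, rfl⟩ := hz
  have h : (a • (-I) + b • v).im = -a := by
    simp [hv]
  refine ⟨by rw [h]; linarith, fun h0 => ?_⟩
  rw [h] at h0
  have ha0 : a = 0 := by linarith
  have hb1 : b = 1 := by linarith
  rw [ha0, hb1]; simp

/-- Task 571-D. -/
theorem k33_halfplane (y y' : ℂ) (γ γ' : Fin 3 → ℝ → ℂ)
    (hγ : ∀ i, ContinuousOn (γ i) (Icc 0 1)) (hγ' : ∀ i, ContinuousOn (γ' i) (Icc 0 1))
    (h0 : ∀ i, γ i 0 = y) (h0' : ∀ i, γ' i 0 = y')
    (hpos : ∀ i, ∀ t ∈ Ico (0 : ℝ) 1, 0 < (γ i t).im)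
    (hpos' : ∀ i, ∀ t ∈ Ico (0 : ℝ) 1, 0 < (γ' i t).im)
    (h1 : ∀ i, (γ i 1).im = 0) (h1' : ∀ i, (γ' i 1).im = 0)
    (hord : ∀ i j, i < j → (γ i 1).re < (γ j 1).re ∧ (γ i 1).re < (γ' j 1).re ∧
      (γ' i 1).re < (γ j 1).re ∧ (γ' i 1).re < (γ' j 1).re) :
    ∃ i j, i ≠ j ∧ ∃ s ∈ Icc (0 : ℝ) 1, ∃ t ∈ Icc (0 : ℝ) 1, γ i s = γ' j t := by
  classical
  by_contra hcon
  push Not at hcon
  -- basic facts
  have him : ∀ i, ∀ z ∈ γ i '' Icc (0 : ℝ) 1, 0 ≤ z.im ∧ (z.im = 0 → z = γ i 1) := by
    rintro i _ ⟨t, ht, rfl⟩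
    rcases ht.2.eq_or_lt with h | h
    · rw [h]; exact ⟨(h1 i).ge, fun _ => rfl⟩
    · have := hpos i t ⟨ht.1, h⟩
      exact ⟨this.le, fun h' => absurd h' this.ne'⟩
  have him' : ∀ i, ∀ z ∈ γ' i '' Icc (0 : ℝ) 1, 0 ≤ z.im ∧ (z.im = 0 → z = γ' i 1) := by
    rintro i _ ⟨t, ht, rfl⟩
    rcases ht.2.eq_or_lt with h | h
    · rw [h]; exact ⟨(h1' i).ge, fun _ => rfl⟩
    · have := hpos' i t ⟨ht.1, h⟩
      exact ⟨this.le, fun h' => absurd h' this.ne'⟩
  have hseg : ∀ i j, i ≠ j → ∀ z ∈ segment ℝ (γ' j 1) (γ j 1), z ≠ γ i 1 := by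
    intro i j hij z hz he
    rcases lt_or_gt_of_ne hij with h | h
    · have := seg_re_lt (hord i j h).2.1 (hord i j h).1 hz
      rw [he] at this; exact lt_irrefl _ this
    · have := seg_re_gt (hord j i h).2.2.1 (hord j i h).1 hz
      rw [he] at this; exact lt_irrefl _ this
  have hpt : ∀ i j, i ≠ j → γ i 1 ≠ γ j 1 := by
    intro i j hij he
    rcases lt_or_gt_of_ne hij with h | h
    · have := (hord i j h).1; rw [he] at this; exact lt_irrefl _ this
    · have := (hord j i h).1; rw [he] at this; exact lt_irrefl _ this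
  have hpt' : ∀ i j, i ≠ j → γ' i 1 ≠ γ j 1 := by
    intro i j hij he
    rcases lt_or_gt_of_ne hij with h | h
    · have := (hord i j h).2.2.1; rw [he] at this; exact lt_irrefl _ this
    · have := (hord j i h).2.1; rw [he] at this; exact lt_irrefl _ this
  have D01 : ∀ i j, i ≠ j → Disjoint (γ i '' Icc (0 : ℝ) 1)
      (γ' j '' Icc (0 : ℝ) 1 ∪ segment ℝ (γ' j 1) (γ j 1)) := by
    intro i j hij
    rw [Set.disjoint_left]
    rintro z hz (hz' | hz')
    · obtain ⟨s, hs, rfl⟩ := hz
      obtain ⟨t, ht, he⟩ := hz'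
      exact hcon i j hij s hs t ht he.symm
    · have hz0 := seg_im (h1' j) (h1 j) hz'
      exact hseg i j hij z hz' ((him i z hz).2 hz0)
  have D02 : ∀ i j, i ≠ j → Disjoint (γ i '' Icc (0 : ℝ) 1) (segment ℝ (-I) (γ j 1)) := by
    intro i j hij
    rw [Set.disjoint_left]
    intro z hz hz'
    have a1 := him i z hz
    have a2 := low_im (h1 j) hz'
    have hz0 : z.im = 0 := le_antisymm a2.1 a1.1
    exact hpt i j hij ((a1.2 hz0).symm.trans (a2.2 hz0))
  have D12 : ∀ i j, i ≠ j → Disjoint (γ' i '' Icc (0 : ℝ) 1 ∪ segment ℝ (γ' i 1) (γ i 1))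
      (segment ℝ (-I) (γ j 1)) := by
    intro i j hij
    rw [Set.disjoint_left]
    rintro z (hz | hz) hz'
    · have a1 := him' i z hz
      have a2 := low_im (h1 j) hz'
      have hz0 : z.im = 0 := le_antisymm a2.1 a1.1
      exact hpt' i j hij ((a1.2 hz0).symm.trans (a2.2 hz0))
    · have hz0 := seg_im (h1' i) (h1 i) hz
      have a2 := low_im (h1 j) hz'
      exact hseg j i hij.symm z hz (a2.2 hz0)
  -- connectedness
  have J0 : ∀ i, JoinedIn (γ i '' Icc (0 : ℝ) 1) y (γ i 1) := by
    intro i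
    have hpc : IsPathConnected (γ i '' Icc (0 : ℝ) 1) :=
      ((convex_Icc (0 : ℝ) 1).isPathConnected ⟨0, by simp⟩).image' (hγ i)
    exact hpc.joinedIn _ ⟨0, by simp, h0 i⟩ _ ⟨1, by simp, rfl⟩
  have J1 : ∀ i, JoinedIn (γ' i '' Icc (0 : ℝ) 1 ∪ segment ℝ (γ' i 1) (γ i 1)) y' (γ i 1) := by
    intro i
    have hpc : IsPathConnected (γ' i '' Icc (0 : ℝ) 1) :=
      ((convex_Icc (0 : ℝ) 1).isPathConnected ⟨0, by simp⟩).image' (hγ' i)
    have a := hpc.joinedIn _ ⟨0, by simp, h0' i⟩ _ ⟨1, by simp, rfl⟩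
    have b := ((convex_segment (𝕜 := ℝ) (γ' i 1) (γ i 1)).isPathConnected
      ⟨_, left_mem_segment ℝ _ _⟩).joinedIn _ (left_mem_segment ℝ _ _) _ (right_mem_segment ℝ _ _)
    exact (a.mono Set.subset_union_left).trans (b.mono Set.subset_union_right)
  have J2 : ∀ i, JoinedIn (segment ℝ (-I) (γ i 1)) (-I) (γ i 1) := by
    intro i
    exact ((convex_segment (𝕜 := ℝ) (-I) (γ i 1)).isPathConnected
      ⟨_, left_mem_segment ℝ _ _⟩).joinedIn _ (left_mem_segment ℝ _ _) _ (right_mem_segment ℝ _ _)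
  let S : Fin 6 → Fin 6 → Set ℂ := fun a b =>
    if a = 0 then γ (idx b) '' Icc (0 : ℝ) 1
    else if a = 1 then γ' (idx b) '' Icc (0 : ℝ) 1 ∪ segment ℝ (γ' (idx b) 1) (γ (idx b) 1)
    else segment ℝ (-I) (γ (idx b) 1)
  let p : Fin 6 → ℂ := fun a =>
    if a = 0 then y else if a = 1 then y' else if a = 2 then -I else γ (idx a) 1
  have hcase : ∀ a b : Fin 6, E33 a b → (a = 0 ∨ a = 1 ∨ a = 2) := by decide
  have hB : ∀ a b : Fin 6, E33 a b → p b = γ (idx b) 1 := by
    intro a b hab
    have h3 : b ≠ 0 ∧ b ≠ 1 ∧ b ≠ 2 := by revert a b; decide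
    simp only [p, if_neg h3.1, if_neg h3.2.1, if_neg h3.2.2]
  have hS : ∀ a b, E33 a b → JoinedIn (S a b) (p a) (p b) := by
    intro a b hab
    rw [hB a b hab]
    rcases hcase a b hab with rfl | rfl | rfl
    · exact J0 (idx b)
    · exact J1 (idx b)
    · exact J2 (idx b)
  have hidx : ∀ a b c d : Fin 6, E33 a b → E33 c d → b ≠ d → idx b ≠ idx d := by decide
  refine k33_joined p S hS ?_
  intro a b c d hab hcd hac hbd
  have hi := hidx a b c d hab hcd hbd
  rcases hcase a b hab with rfl | rfl | rfl <;> rcases hcase c d hcd with rfl | rfl | rfl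
  · exact absurd rfl hac
  · exact D01 _ _ hi
  · exact D02 _ _ hi
  · exact (D01 _ _ hi.symm).symm
  · exact absurd rfl hac
  · exact D12 _ _ hi
  · exact (D02 _ _ hi.symm).symm
  · exact (D12 _ _ hi.symm).symm
  · exact absurd rfl hac

end Pool.Agent.H650R3.T571D
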