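import Mathlib

/-! Task 571-C: finitely many distinct points of the plane can be moved to any other
distinct points by a homeomorphism. -/

namespace Pool.Agent.H650R3.T571C

open Complex

/-- vertical shear -/
noncomputable def shearV (f : ℝ → ℝ) (hf : Continuous f) : ℂ ≃ₜ ℂ where
  toFun z := z + (f z.re : ℂ) * I
  invFun z := z - (f z.re : ℂ) * I
  left_inv z := by simp
  right_inv z := by simp
  continuous_toFun := by
    have := hf.comp Complex.continuous_re
    exact continuous_id.add ((Complex.continuous_ofReal.comp this).mul continuous_const)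
  continuous_invFun := by
    have := hf.comp Complex.continuous_re
    exact continuous_id.sub ((Complex.continuous_ofReal.comp this).mul continuous_const)

/-- horizontal shear -/
noncomputable def shearH (f : ℝ → ℝ) (hf : Continuous f) : ℂ ≃ₜ ℂ where
  toFun z := z + (f z.im : ℂ)
  invFun z := z - (f z.im : ℂ)
  left_inv z := by simp
  right_inv z := by simp
  continuous_toFun := by
    have := hf.comp Complex.continuous_im
    exact continuous_id.add (Complex.continuous_ofReal.comp this)
  continuous_invFun := by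
    have := hf.comp Complex.continuous_im
    exact continuous_id.sub (Complex.continuous_ofReal.comp this)

theorem exists_interp {ι : Type} [Finite ι] (x v : ι → ℝ) (hx : Function.Injective x) :
    ∃ f : ℝ → ℝ, Continuous f ∧ ∀ i, f (x i) = v i := by
  classical
  haveI := Fintype.ofFinite ι
  refine ⟨fun t => (Lagrange.interpolate Finset.univ x v).eval t, Polynomial.continuous _, ?_⟩
  intro i
  exact Lagrange.eval_interpolate_at_node v (hx.injOn) (Finset.mem_univ i)

theorem exists_rot {ι : Type} [Finite ι] (P : ι → ℂ) (hP : Function.Injective P) :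
    ∃ c : ℂ, c ≠ 0 ∧ Function.Injective (fun i => (c * P i).re) := by
  classical
  have hfin : (⋃ p : ι × ι, {t : ℝ | p.1 ≠ p.2 ∧ (P p.1 - P p.2).re - t * (P p.1 - P p.2).im = 0}).Finite := by
    refine Set.finite_iUnion (fun p => ?_)
    by_cases hp : p.1 = p.2
    · simp [hp]
    by_cases him : (P p.1 - P p.2).im = 0
    · have : (P p.1 - P p.2).re ≠ 0 := by
        intro hre
        apply hp
        apply hP
        have : P p.1 - P p.2 = 0 := Complex.ext (by simpa using hre) (by simpa using him)
        exact sub_eq_zero.mp this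
      refine Set.Finite.subset Set.finite_empty ?_
      intro t ht
      rw [Set.mem_setOf_eq, him] at ht
      simp only [mul_zero, sub_zero] at ht
      exact this ht.2
    · refine Set.Finite.subset (Set.finite_singleton ((P p.1 - P p.2).re / (P p.1 - P p.2).im)) ?_
      intro t ht
      rw [Set.mem_singleton_iff, eq_div_iff him]
      have := ht.2
      linarith
  obtain ⟨t, ht⟩ := hfin.exists_notMem
  refine ⟨1 - t * I * (-1), ?_, ?_⟩
  · intro h
    have := congrArg Complex.re h
    simp at this
  · intro i j hij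
    by_contra hne
    apply ht
    refine Set.mem_iUnion.mpr ⟨(i, j), hne, ?_⟩
    simp only [Complex.mul_re, Complex.sub_re, Complex.sub_im, Complex.one_re, Complex.one_im,
      Complex.mul_im, Complex.ofReal_re, Complex.ofReal_im, Complex.I_re, Complex.I_im,
      Complex.neg_re, Complex.neg_im] at hij ⊢
    ring_nf at hij ⊢
    linarith

theorem exists_homeo {ι : Type} [Finite ι] (P Q : ι → ℂ) (hP : Function.Injective P)
    (hQ : Function.Injective Q) : ∃ f : ℂ ≃ₜ ℂ, ∀ i, f (P i) = Q i := by
  classical
  obtain ⟨c, hc, hcP⟩ := exists_rot P hP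
  obtain ⟨d, hd, hdQ⟩ := exists_rot Q hQ
  haveI := Fintype.ofFinite ι
  -- distinct heights
  let e : ι → ℝ := fun i => ((Fintype.equivFin ι i : Fin _) : ℕ)
  have he : Function.Injective e := by
    intro i j hij
    have : ((Fintype.equivFin ι i : Fin _) : ℕ) = ((Fintype.equivFin ι j : Fin _) : ℕ) :=
      Nat.cast_injective (R := ℝ) hij
    exact (Fintype.equivFin ι).injective (Fin.ext this)
  obtain ⟨f1, hf1, hf1'⟩ := exists_interp (fun i => (c * P i).re) (fun i => e i - (c * P i).im) hcP
  obtain ⟨f2, hf2, hf2'⟩ := exists_interp e (fun i => (d * Q i).re - (c * P i).re) he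
  obtain ⟨f3, hf3, hf3'⟩ := exists_interp (fun i => (d * Q i).re) (fun i => (d * Q i).im - e i) hdQ
  refine ⟨((((Homeomorph.mulLeft₀ c hc).trans (shearV f1 hf1)).trans (shearH f2 hf2)).trans
    (shearV f3 hf3)).trans (Homeomorph.mulLeft₀ d hd).symm, ?_⟩
  intro i
  have h1 : shearV f1 hf1 (c * P i) = ⟨(c * P i).re, e i⟩ := by
    change c * P i + (f1 (c * P i).re : ℂ) * I = _
    rw [hf1' i]
    apply Complex.ext <;> simp
  have h2 : shearH f2 hf2 ⟨(c * P i).re, e i⟩ = ⟨(d * Q i).re, e i⟩ := by
    change (⟨(c * P i).re, e i⟩ : ℂ) + (f2 (e i) : ℂ) = _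
    rw [hf2' i]
    apply Complex.ext <;> simp
  have h3 : shearV f3 hf3 ⟨(d * Q i).re, e i⟩ = d * Q i := by
    change (⟨(d * Q i).re, e i⟩ : ℂ) + (f3 (d * Q i).re : ℂ) * I = _
    rw [hf3' i]
    apply Complex.ext <;> simp
  change (Homeomorph.mulLeft₀ d hd).symm (shearV f3 hf3 (shearH f2 hf2 (shearV f1 hf1
    (Homeomorph.mulLeft₀ c hc (P i))))) = Q i
  have h0 : Homeomorph.mulLeft₀ c hc (P i) = c * P i := rfl
  rw [h0, h1, h2, h3]
  rw [Homeomorph.symm_apply_eq]
  rfl

end Pool.Agent.H650R3.T571C
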