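import Pool.Agent.H715R3.D7

set_option autoImplicit false

/-! SLLN for the frequency of differences with a fixed set. -/

namespace Pool.Agent.H650R3.Att

open Pool.Agent.H715R3.Disp MeasureTheory Filter ProbabilityTheory
open scoped ENNReal Topology

/-- indicator of a difference at one place -/
noncomputable def df (c : Bool) (b : Bool) : ℝ := if c ≠ b then 1 else 0

lemma df_meas (c : Bool) : Measurable (df c) := measurable_of_countable _

lemma coin_df (c : Bool) : (PMF.uniformOfFintype Bool).toMeasure.map (df c) =
    (PMF.uniformOfFintype Bool).toMeasure.map (df true) := by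
  ext s hs
  rw [Measure.map_apply (df_meas c) hs, Measure.map_apply (df_meas true) hs]
  rcases c with _ | _
  · have h1 : (PMF.uniformOfFintype Bool).toMeasure (df false ⁻¹' s) =
        (PMF.uniformOfFintype Bool).toMeasure (Bool.not ⁻¹' (df true ⁻¹' s)) := by
      congr 1
      ext b
      rcases b with _ | _ <;> simp [df]
    rw [h1]
    have h2 : (PMF.uniformOfFintype Bool).toMeasure.map Bool.not =
        (PMF.uniformOfFintype Bool).toMeasure := by
      refine Measure.ext_of_singleton (fun b => ?_)
      rw [Measure.map_apply (measurable_of_countable _) (MeasurableSet.singleton _)]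
      have h3 : Bool.not ⁻¹' {b} = {!b} := by
        ext x; rcases x with _ | _ <;> rcases b with _ | _ <;> simp
      rw [h3, coin, coin]
    rw [← Measure.map_apply (measurable_of_countable Bool.not) (df_meas true hs), h2]
  · rfl

/-- For every set `C`, the frequency of differences with a random set tends to one half. -/
theorem slln (C : ℕ → Bool) : ∀ᵐ B ∂mu, Tendsto (fr C B) atTop (𝓝 (1 / 2)) := by
  have hmeas : ∀ i : ℕ, Measurable (fun B : ℕ → Bool => df (C i) (B i)) := fun i =>
    (df_meas (C i)).comp (measurable_pi_apply i)
  have hind : iIndepFun (fun i (B : ℕ → Bool) => df (C i) (B i)) mu :=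
    iIndepFun_infinitePi (X := fun i => df (C i)) (fun i => df_meas _)
  have hmap : ∀ i, mu.map (fun B : ℕ → Bool => df (C i) (B i)) =
      (PMF.uniformOfFintype Bool).toMeasure.map (df true) := by
    intro i
    have h1 : (fun B : ℕ → Bool => df (C i) (B i)) = df (C i) ∘ (fun B => B i) := rfl
    rw [h1, ← Measure.map_map (df_meas _) (measurable_pi_apply i), Measure.infinitePi_map_eval,
      coin_df]
  have hid : ∀ i, IdentDistrib (fun B : ℕ → Bool => df (C i) (B i))
      (fun B : ℕ → Bool => df (C 0) (B 0)) mu mu := fun i =>
    ⟨(hmeas i).aemeasurable, (hmeas 0).aemeasurable, by rw [hmap, hmap]⟩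
  have hint : Integrable (fun B : ℕ → Bool => df (C 0) (B 0)) mu := by
    refine Integrable.of_bound (hmeas 0).aestronglyMeasurable 1 (ae_of_all _ (fun B => ?_))
    unfold df
    split_ifs <;> simp
  have hexp : ∫ B, df (C 0) (B 0) ∂mu = 1 / 2 := by
    have h1 : ∫ B, df (C 0) (B 0) ∂mu = ∫ b, df (C 0) b ∂((PMF.uniformOfFintype Bool).toMeasure) := by
      have h2 : (PMF.uniformOfFintype Bool).toMeasure = mu.map (fun B : ℕ → Bool => B 0) :=
        (Measure.infinitePi_map_eval (fun _ : ℕ => (PMF.uniformOfFintype Bool).toMeasure) 0).symm
      rw [h2, integral_map (measurable_pi_apply 0).aemeasurable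
        (df_meas _).aestronglyMeasurable]
    rw [h1, integral_fintype]
    · simp only [Fintype.sum_bool, Measure.real, coin]
      rcases h : C 0 <;> simp [df]
    · exact Integrable.of_bound (df_meas _).aestronglyMeasurable 1 (ae_of_all _ (fun B => by
        unfold df; split_ifs <;> simp))
  have := strong_law_ae_real (fun i (B : ℕ → Bool) => df (C i) (B i)) hint
    (fun i j hij => hind.indepFun hij) hid
  filter_upwards [this] with B hB
  rw [hexp] at hB
  refine hB.congr (fun n => ?_)
  unfold fr
  congr 1
  rw [Finset.card_filter]
  push_cast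
  exact Finset.sum_congr rfl (fun i _ => rfl)

end Pool.Agent.H650R3.Att
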